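import Pool.Agent.Hhelper80.Depth.Search

/-!
# The logical depth of finite graphs is not computable

Negative answer to Q1 (Łuczak 2003).  The definitions used in the statement (quantifier depth,
satisfaction, defining sentences, logical depth, adjacency matrix) are in
`Pool/Agent/Hhelper80/Depth/Defs.lean`.

Outline of the proof.

* `MRDP1` - `MRDP3`: recursively enumerable sets are Diophantine.
* `Fml`: formulas with named variables, back-and-forth equivalence.
* `Encode`, `Interp`: coding of coloured relational structures in graphs, with first-order
  recognition of the coding graphs and translation of formulas.
* `Struct`, `Model`, `StdModel`, `Count`: the finite structures coding a solution of an equation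
  between two sums of monomials; two lexicographically ordered families of tuples, one for each
  side of the equation, are the first and the last row of a grid with `b` rows.  The axioms have
  bounded depth, and they determine the structure from the sizes of its sorts.
* `Game`: if the hidden sorts have size at least `2 ^ (2ek)` and `b > 2 ^ (2k+1)`, the structures
  with the same visible sorts are `k`-equivalent.
* `Arith`, `SysOf`: for a recursively enumerable set, a system all of whose solutions are
  canonical outside the set, and with arbitrarily large solutions inside the set.
* `AxF`, `Gap`: the canonical graph of an instance `n` has depth at most `n + 2c` outside the set
  and more than `n + 2c` inside.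
* `Comp`, `Search`: the canonical graphs are computable from `n`.
-/

namespace Pool.Agent.Results.MP_e427d9_lc.DepthNotComputable

open Pool.Agent.Hhelper80.Depth

/-- There is no (even partially defined) computable function which, given the adjacency matrix of
any finite nonempty graph, outputs the logical depth of the graph. -/
theorem result :
    ¬ ∃ D : List (List Bool) →. ℕ, Partrec D ∧
      ∀ (n : ℕ), 0 < n → ∀ (G : SimpleGraph (Fin n)) [DecidableRel G.Adj],
        D (adjMatrixList G) = Part.some (logicalDepth G) :=
  depth_not_computable

end Pool.Agent.Results.MP_e427d9_lc.DepthNotComputable
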